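import Pool.Agent.H110.NetArith

/-!
# Common nets of two of the cube, octahedron, dodecahedron, icosahedron

Let `P` be a polygon in the plane which is a net of two different solids `Q₁, Q₂` among the cube,
the regular octahedron, the regular dodecahedron and the regular icosahedron (cuts anywhere, the
two sizes are free).  Cut `P` into triangles in two ways, so that each triangulation folds edge to
edge onto a triangulation of the surface of `Q₁`, respectively `Q₂` (every net has such
triangulations: take a common refinement of the cut tree and the edges of the polyhedron).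

**Theorem.** There are two sides of `P` such that on both of them the two triangulations have
different edges, and such that
* if the faces of `Q₁` and `Q₂` are not all triangles, then the angle between the two sides is not
  a rational multiple of `π`;
* for the octahedron and the icosahedron, the directions of the two sides are not related by an
  element `a + b ω` with rational `a, b` (in particular the angle is not a multiple of `60°`).

Consequences: there is no common net for which one finite subdivision of the boundary serves for
both foldings, so that `P` would be one edge-to-edge assembly of pieces for both solids; no polygon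
all of whose angles are rational multiples of `π` is a common net of two of the four solids,
except possibly for the octahedron and the icosahedron; and no polygon all of whose angles are
multiples of `60°` is a common net of these two.

The proof: for an additive map `L : ℂ → ℂ` which is semilinear for the rotations by `2π/k` put
`T(L) = ∑ Im (conj (L a) L b)` over the oriented edges of all triangles.  For a triangulation
folded onto a closed surface glued from `N` regular `k`-gons this is `N C ‖L z‖²`, where `C` is the
twisted area of the `k`-gon; a Galois twist makes `C` positive for one solid and negative for the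
other one, or the quotient of the two areas is not a norm.  On the other hand `T(L)` is a sum over
the sides of `P`, in which the sides with equal subdivisions and the sides with directions in one
class contribute the same for both triangulations.
-/

set_option autoImplicit false

namespace Pool.Agent.Results.MP_f2d99b_co.CommonNetObstruction

open Pool.Agent.H110.Net

/-- The number of sides of a face and the number of faces of the cube, the octahedron, the
dodecahedron and the icosahedron. -/
def IsSolid (k N : ℕ) : Prop :=
  (k = 4 ∧ N = 6) ∨ (k = 3 ∧ N = 8) ∨ (k = 5 ∧ N = 12) ∨ (k = 3 ∧ N = 20)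

/-- The polygon `p` is a net, `A`, of a surface glued from `N₁` regular `k₁`-gons (of side length
`s₁`) and a net, `B`, of a surface glued from `N₂` regular `k₂`-gons (of side length `s₂`). -/
theorem result {k₁ N₁ k₂ N₂ : ℕ} (h₁ : IsSolid k₁ N₁)
    (h₂ : IsSolid k₂ N₂) (hne : (k₁, N₁) ≠ (k₂, N₂)) (S₁ : Surface k₁ N₁) (S₂ : Surface k₂ N₂)
    (s₁ s₂ : ℝ) (hs₁ : 0 < s₁) (hs₂ : 0 < s₂) {n : ℕ} (hn : 0 < n) (p : ZMod n → ℂ)
    (A : NetOn S₁ s₁ p) (B : NetOn S₂ s₂ p) :
    ∃ i j, A.edgesOn i ≠ B.edgesOn i ∧ A.edgesOn j ≠ B.edgesOn j ∧
      (k₁ ≠ k₂ → ∀ (r : ℚ) (x : ℝ),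
        p (j + 1) - p j ≠ x * Complex.exp (Real.pi * Complex.I * r) * (p (i + 1) - p i)) ∧
      (k₁ = k₂ → ∀ (a b : ℚ) (x : ℝ),
        p (j + 1) - p j ≠ x * (a + b * Complex.exp (2 * Real.pi * Complex.I / 3)) *
          (p (i + 1) - p i)) := by
  have : NeZero n := ⟨hn.ne'⟩
  have hp₁ : IsPlatonic k₁ N₁ := by rcases h₁ with h | h | h | h <;> simp [IsPlatonic, h]
  have hp₂ : IsPlatonic k₂ N₂ := by rcases h₂ with h | h | h | h <;> simp [IsPlatonic, h]
  by_cases hk : k₁ = k₂
  · subst hk
    have h3 : k₁ = 3 ∧ (N₁ = 8 ∨ N₁ = 20) ∧ (N₂ = 8 ∨ N₂ = 20) ∧ N₁ ≠ N₂ := by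
      have hne' : N₁ ≠ N₂ := by rintro rfl; exact hne rfl
      rcases h₁ with h | h | h | h <;> rcases h₂ with h' | h' | h' | h' <;> omega
    obtain ⟨rfl, hN1, hN2, hNne⟩ := h3
    obtain ⟨i, hi, -⟩ := differ_hexagonal (Or.inr hN1) (Or.inr hN2) hNne hs₁ A B 1 one_ne_zero
    obtain ⟨j, hj, hj'⟩ := differ_hexagonal (Or.inr hN1) (Or.inr hN2) hNne hs₁ A B
      (p (i + 1) - p i) (side_ne A i)
    refine ⟨i, j, hi, hj, fun h => absurd rfl h, fun _ a b x => ?_⟩
    have := hj' a b x
    unfold rt at this
    exact_mod_cast this
  · obtain ⟨i, hi, -⟩ := differ_irrational hp₁ hp₂ hk hs₁ hs₂ A B 1 one_ne_zero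
    obtain ⟨j, hj, hj'⟩ := differ_irrational hp₁ hp₂ hk hs₁ hs₂ A B (p (i + 1) - p i)
      (side_ne A i)
    exact ⟨i, j, hi, hj, fun _ => hj', fun h => absurd h hk⟩

end Pool.Agent.Results.MP_f2d99b_co.CommonNetObstruction
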